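import Mathlib
import Pool.Agent.Lib.helper23.HeatE

set_option autoImplicit false

namespace Pool.Agent.Results.MP_94b6b1_an.Main

open Equiv Pool.Agent.Lib.helper23

/-- nonnegative negative definite functions vanishing at the identity -/
def ND {G : Type} [Group G] (d : G → ℝ) : Prop :=
  d 1 = 0 ∧ (∀ g, 0 ≤ d g) ∧ (∀ g, d g⁻¹ = d g) ∧ ∀ (n : ℕ) (g : Fin n → G) (c : Fin n → ℂ),
    ∑ i, c i = 0 → (∑ i, ∑ j, star (c i) * c j * d ((g i)⁻¹ * g j)).re ≤ 0

/-- the Haagerup property -/
def Haag (G : Type) [Group G] : Prop := ∃ d : G → ℝ, ND d ∧ ∀ s : ℝ, {g | d g ≤ s}.Finite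

section

variable {G H : Type} [Group G] [NormedAddCommGroup H] [InnerProductSpace ℂ H]

/-- the left regular representation -/
def Reg (b : HilbertBasis G ℂ H) (u : G → H →L[ℂ] H) : Prop := ∀ g h, u g (b h) = b (g * h)

/-- Fourier coefficients -/
noncomputable def hat (b : HilbertBasis G ℂ H) (x : H →L[ℂ] H) (g : G) : ℂ :=
  inner ℂ (b g) (x (b 1))

end

/-- the norm closure of the span of a family -/
def Cr {G B : Type} [NormedAddCommGroup B] [NormedSpace ℂ B] (u : G → B) : Set B :=
  closure (Submodule.span ℂ (Set.range u) : Set B)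

/-- all damped Fourier series converge unconditionally in norm -/
def Damp {G B : Type} [NormedAddCommGroup B] [NormedSpace ℂ B] (u : G → B) (c : B → G → ℂ)
    (d : G → ℝ) : Prop :=
  ∀ x ∈ Cr u, ∀ t : ℝ, 0 < t → Summable fun g => ((Real.exp (-(t * d g)) : ℂ) * c x g) • u g

/-- the heat property -/
def Heat (G : Type) [Group G] : Prop :=
  ∃ (H : Type) (_ : NormedAddCommGroup H) (_ : InnerProductSpace ℂ H) (_ : CompleteSpace H)
    (b : HilbertBasis G ℂ H) (u : G → H →L[ℂ] H) (d : G → ℝ), Reg b u ∧ ND d ∧ Damp u (hat b) d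

/-- the Cantor space -/
abbrev C : Type := Stream' Bool

/-- maps that replace initial words -/
def Pre (g : Perm C) : Prop :=
  ∃ N, ∀ w : List Bool, w.length = N → ∃ v : List Bool, ∀ y, g (w ++ₛ y) = v ++ₛ y

/-- the lexicographic order -/
def Lt (x y : C) : Prop := ∃ n, (∀ i < n, x i = y i) ∧ x n = false ∧ y n = true

/-- the cyclic order -/
def Cyc (x y z : C) : Prop := (Lt x y ∧ Lt y z) ∨ (Lt y z ∧ Lt z x) ∨ (Lt z x ∧ Lt x y)

/-- Thompson's group `V` -/
def V : Subgroup (Perm C) := Subgroup.closure {g | Pre g}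

/-- Thompson's group `T` -/
def T : Subgroup (Perm C) :=
  Subgroup.closure {g | Pre g ∧ ∀ x y z, Cyc x y z → Cyc (g x) (g y) (g z)}

/-- Thompson's group `F` -/
def F : Subgroup (Perm C) := Subgroup.closure {g | Pre g ∧ ∀ x y, Lt x y → Lt (g x) (g y)}

/-- countably infinite, Haagerup, without the heat property -/
def Bad (G : Type) [Group G] : Prop := Countable G ∧ Infinite G ∧ Haag G ∧ ¬ Heat G

theorem cnd {G Ω : Type} [Group G] [MulAction G Ω] (X : Set Ω)
    (h : ∀ g : G, {ω | ¬ (g⁻¹ • ω ∈ X ↔ ω ∈ X)}.Finite) :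
    ND fun g : G => ({ω | ¬ (g⁻¹ • ω ∈ X ↔ ω ∈ X)}.ncard : ℝ) := by
  classical
  have k : ∀ a b : G, {ω | ¬ ((a⁻¹ * b)⁻¹ • ω ∈ X ↔ ω ∈ X)}.ncard =
      {ω | ¬ (b⁻¹ • ω ∈ X ↔ a⁻¹ • ω ∈ X)}.ncard := fun a b => by
    rw [← Set.ncard_preimage_of_injective_subset_range (MulAction.injective a⁻¹)
      (by rw [(MulAction.surjective _).range_eq]; exact Set.subset_univ _)]
    simp [← mul_smul]
  refine ⟨by simp, fun _ => by positivity, fun g => ?_, fun n g c hc => ?_⟩
  · simpa [iff_comm] using k g 1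
  let W := (Set.finite_iUnion fun i => h (g i)).toFinset
  let p : Fin n → Ω → ℂ := fun i ω => if (g i)⁻¹ • ω ∈ X then 1 else 0
  have e : ∀ i j, (({ω | ¬ (((g i)⁻¹ * g j)⁻¹ • ω ∈ X ↔ ω ∈ X)}.ncard : ℝ) : ℂ) =
      ∑ ω ∈ W, (p i ω + p j ω - 2 * (star (p i ω) * p j ω)) := fun i j => by
    rw [k, ← Set.ncard_congr' (Equiv.setCongr (s := ↑(W.filter fun ω =>
      ¬ ((g j)⁻¹ • ω ∈ X ↔ (g i)⁻¹ • ω ∈ X))) ?_), Set.ncard_coe_finset, Finset.card_filter]
    · push_cast
      refine Finset.sum_congr rfl fun ω _ => ?_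
      by_cases a : (g i)⁻¹ • ω ∈ X <;> by_cases b : (g j)⁻¹ • ω ∈ X <;> norm_num [p, a, b]
    · ext ω
      simp only [W, Finset.coe_filter, Set.Finite.mem_toFinset, Set.mem_iUnion, Set.mem_setOf_eq,
        and_iff_right_iff_imp]
      intro a
      by_contra! b
      exact a ((b j).trans (b i).symm)
  have e2 : ∀ ω, ∑ i, ∑ j, star (c i) * c j * (p i ω + p j ω - 2 * (star (p i ω) * p j ω)) =
      -2 * (star (∑ i, c i * p i ω) * ∑ i, c i * p i ω) := fun ω => by
    have : ∑ i, ∑ j, star (c i) * c j * (p i ω + p j ω - 2 * (star (p i ω) * p j ω)) =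
        (∑ i, star (c i) * p i ω) * ∑ j, c j + star (∑ i, c i) * ∑ j, c j * p j ω -
        2 * (star (∑ i, c i * p i ω) * ∑ i, c i * p i ω) := by
      simp only [star_sum, Finset.sum_mul_sum, star_mul']
      simp only [Finset.mul_sum, ← Finset.sum_add_distrib, ← Finset.sum_sub_distrib]
      exact Finset.sum_congr rfl fun i _ => Finset.sum_congr rfl fun j _ => by ring
    rw [this, hc]
    simp
  simp only [e, Finset.mul_sum]
  rw [Finset.sum_congr rfl fun i _ => Finset.sum_comm, Finset.sum_comm, Complex.re_sum]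
  refine Finset.sum_nonpos fun ω _ => ?_
  rw [e2, RCLike.star_def, Complex.conj_mul']
  simp [← Complex.ofReal_pow]

theorem winj : ∀ a b : List Bool, (∀ y, a ++ₛ y = b ++ₛ y) → a = b
  | [], [], _ => rfl
  | [], a :: _, h => absurd (congrFun (h (.const (!a))) 0) a.not_ne_self
  | a :: _, [], h => absurd (congrFun (h (.const (!a))) 0).symm a.not_ne_self
  | a :: l, b :: m, h => by
    rw [(Stream'.cons_injective2 (h (.const a))).1,
      winj l m fun y => (Stream'.cons_injective2 (h y)).2]

theorem split (v : List Bool) {n : ℕ} (h : n ≤ v.length) :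
    ∃ a b, v = a ++ b ∧ a.length = n := ⟨_, _, (v.take_append_drop n).symm, by simpa using h⟩

theorem Pre.inv {g : Perm C} : Pre g → Pre g⁻¹ := by
  rintro ⟨N, h⟩
  choose! o ho using h
  obtain ⟨M, hM⟩ := ((List.finite_length_eq Bool N).image fun w => (o w).length).bddAbove
  refine ⟨M, fun v hv => ?_⟩
  have a := ho ((g⁻¹ (v ++ₛ .const true)).take N) (by simp) ((g⁻¹ (v ++ₛ .const true)).drop N)
  set w := (g⁻¹ (v ++ₛ .const true)).take N
  have hw : w.length = N := by simp [w]
  obtain ⟨p, q, rfl, e⟩ := split v ((hM ⟨w, hw, rfl⟩).trans hv.ge)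
  rw [Stream'.append_take_drop, Perm.coe_inv, apply_symm_apply, Stream'.append_append_stream] at a
  have := congrArg (Stream'.take p.length) a
  rw [Stream'.take_append_of_le_length _ _ _ le_rfl, Stream'.take_append_of_le_length _ _ _ e.le,
    List.take_length, e, List.take_length] at this
  exact ⟨w ++ q, fun y => by rw [Perm.inv_eq_iff_eq, Stream'.append_append_stream,
    Stream'.append_append_stream, ho w hw, this]⟩

def X : Set (C → C) := Set.range fun (w : List Bool) (y : C) => w ++ₛ y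

theorem Pre.half {g : Perm C} (h : Pre g) : {ω ∈ X | g • ω ∉ X}.Finite := by
  obtain ⟨N, h⟩ := h
  refine ((List.finite_length_lt Bool N).image fun w y => w ++ₛ y).subset ?_
  rintro _ ⟨⟨w, rfl⟩, a⟩
  refine ⟨w, not_le.1 fun e : N ≤ w.length => a ?_, rfl⟩
  obtain ⟨p, q, rfl, e'⟩ := split w e
  obtain ⟨v, hv⟩ := h p e'
  exact ⟨v ++ q, funext fun y => by simp [Stream'.append_append_stream, hv]⟩

theorem Dfin {g : Perm C} (h : g ∈ V) : {ω | ¬ (g⁻¹ • ω ∈ X ↔ ω ∈ X)}.Finite := by
  have pre := fun (g : Perm C) {S : Set (C → C)} (h : S.Finite) =>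
    h.preimage (MulAction.injective g).injOn
  induction h using Subgroup.closure_induction with
  | mem g h =>
    refine ((Pre.inv h).half.union (pre g⁻¹ (Pre.half h))).subset fun ω a => ?_
    by_cases b : ω ∈ X <;> simpa [b] using a
  | one => simp
  | mul g k _ _ a b =>
    refine (a.union (pre g⁻¹ b)).subset fun ω e => ?_
    by_contra c
    simp only [Set.mem_union, Set.mem_preimage, Set.mem_setOf_eq, not_or, not_not] at c
    exact e (by rw [mul_inv_rev, mul_smul, c.2, c.1])
  | inv g _ a => exact (pre g a).subset fun ω e => by simpa [iff_comm] using e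

theorem short {g : Perm C} (h : g ∈ V) {s : ℕ} (hs : {ω | ¬ (g⁻¹ • ω ∈ X ↔ ω ∈ X)}.ncard ≤ s)
    (w : List Bool) (hw : w.length = s) : ∃ v, ∀ y, g⁻¹ (w ++ₛ y) = v ++ₛ y := by
  by_contra! hc
  refine absurd ((Set.ncard_le_ncard_of_injOn (s := Set.univ)
    (fun (i : Fin (s + 1)) y => w.take i ++ₛ y) (fun i _ => ?_) (fun i _ j _ e => ?_)
    (Dfin h)).trans hs) (by simp)
  · intro a
    obtain ⟨v, hv⟩ := a.2 ⟨_, rfl⟩
    obtain ⟨y, hy⟩ := hc (v ++ w.drop i)
    refine hy ?_
    conv_lhs => rw [← w.take_append_drop i]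
    rw [Stream'.append_append_stream, Stream'.append_append_stream]
    exact (congrFun hv _).symm
  · have := congrArg List.length (winj _ _ (congrFun e))
    simp only [List.length_take, hw] at this
    exact Fin.ext (by omega)

theorem haag (G : Subgroup (Perm C)) (hG : G ≤ V) : Haag G := by
  have h := cnd (G := G) X fun g => Dfin (hG g.2)
  refine ⟨_, h, fun s => ?_⟩
  obtain ⟨n, hn⟩ := exists_nat_ge s
  haveI := (List.finite_length_eq Bool n).to_subtype
  refine Set.Finite.of_finite_image (f := fun (g : G) (w : {w : List Bool | w.length = n}) y =>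
    g.1⁻¹ (w.1 ++ₛ y)) ((Set.Finite.pi' fun _ => (List.finite_length_le Bool (n + n)).image
      fun w y => w ++ₛ y).subset ?_) fun g _ k _ e => ?_
  · rintro _ ⟨g, hg, rfl⟩ w
    have a1 : {ω | ¬ (g.1⁻¹ • ω ∈ X ↔ ω ∈ X)}.ncard ≤ n := Nat.cast_le.1 (hg.trans hn)
    have a2 : {ω | ¬ (g.1⁻¹⁻¹ • ω ∈ X ↔ ω ∈ X)}.ncard ≤ n :=
      Nat.cast_le.1 ((h.2.2.1 g).trans_le (hg.trans hn))
    obtain ⟨v, hv⟩ := short (hG g.2) a1 w.1 w.2
    refine ⟨v, not_lt.1 fun e : n + n < v.length => ?_, (funext hv).symm⟩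
    obtain ⟨p, q, rfl, b⟩ := split v ((Nat.le_add_right n n).trans e.le)
    obtain ⟨r, hr⟩ := short (V.inv_mem (hG g.2)) a2 p b
    have := congrArg List.length (winj w.1 (r ++ q) fun y => by
      rw [Stream'.append_append_stream, ← hr, ← Stream'.append_append_stream, ← hv]
      simp)
    have := w.2
    simp only [List.length_append, Set.mem_setOf_eq] at *
    omega
  · refine Subtype.ext (inv_injective (Equiv.ext fun x => ?_))
    simpa using congrFun (congrFun e ⟨x.take n, by simp⟩) (x.drop n)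

def ltL : List Bool → List Bool → Bool
  | a :: l, b :: m => (!a && b) || (a == b && ltL l m)
  | _, _ => false

theorem lt_cons {a b : Bool} {x y : C} :
    Lt (.cons a x) (.cons b y) ↔ (a = false ∧ b = true) ∨ (a = b ∧ Lt x y) := by
  constructor
  · rintro ⟨_ | n, h1, h2⟩
    · exact Or.inl h2
    · exact Or.inr ⟨h1 0 n.succ_pos, n, fun i hi => h1 (i + 1) (Nat.succ_lt_succ hi), h2⟩
  · rintro (h | ⟨h, n, h1, h2⟩)
    · exact ⟨0, by simp, h⟩
    · exact ⟨n + 1, fun | 0, _ => h | i + 1, hi => h1 i (Nat.lt_of_succ_lt_succ hi), h2⟩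

theorem lt1 : ∀ (l m : List Bool) (x y : C), ltL l m = true → Lt (l ++ₛ x) (m ++ₛ y)
  | [], _, _, _, h => by simp [ltL] at h
  | _ :: _, [], _, _, h => by simp [ltL] at h
  | a :: l, b :: m, x, y, h => lt_cons.2 (by
      simp only [ltL, Bool.or_eq_true, Bool.and_eq_true, Bool.not_eq_eq_eq_not, Bool.not_true,
        beq_iff_eq] at h
      exact h.imp_right fun h => ⟨h.1, lt1 l m x y h.2⟩)

theorem lt2 {x y : C} (h : Lt x y) : ∀ l : List Bool, Lt (l ++ₛ x) (l ++ₛ y)
  | [] => h
  | _ :: l => lt_cons.2 (Or.inr ⟨rfl, lt2 h l⟩)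

theorem lt3 (n : ℕ) : ∀ x y : C, Lt x y → ltL (x.take n) (y.take n) = true ∨
    (x.take n = y.take n ∧ Lt (x.drop n) (y.drop n)) := by
  induction n with
  | zero => exact fun x y h => Or.inr ⟨rfl, h⟩
  | succ n ih =>
    intro x y h
    rw [← x.eta, ← y.eta, lt_cons] at h
    rcases h with ⟨a, b⟩ | ⟨a, h⟩
    · exact Or.inl (by simp [Stream'.take_succ, ltL, a, b])
    · exact (ih _ _ h).imp (fun e => by simp [Stream'.take_succ, ltL, a, e])
        fun e => ⟨by rw [Stream'.take_succ, Stream'.take_succ, a, e.1], e.2⟩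

def wd : ℕ → List (List Bool)
  | 0 => [[]]
  | n + 1 => (wd n).map (false :: ·) ++ (wd n).map (true :: ·)

theorem mem_wd : ∀ w : List Bool, w ∈ wd w.length
  | [] => by simp [wd]
  | a :: l => by cases a <;> simp [wd, mem_wd l]

theorem len_wd : ∀ n, ∀ w ∈ wd n, w.length = n
  | 0 => by simp [wd]
  | n + 1 => by
    simp only [wd, List.mem_append, List.mem_map]
    rintro _ (⟨w, h, rfl⟩ | ⟨w, h, rfl⟩) <;> simp [len_wd n w h]

theorem mk (o : List Bool → List Bool)
    (h1 : ((wd 6).all fun a => (wd 6).all fun b => !ltL a b || ltL (o a) (o b)) = true)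
    (h2 : ((wd 9).all fun v => (wd 6).any fun w => (o w).isPrefixOf v) = true) :
    ∃ g ∈ F, ∀ x, g x = o (x.take 6) ++ₛ x.drop 6 := by
  have mw : ∀ (x : C) n, x.take n ∈ wd n := fun x n => by simpa using mem_wd (x.take n)
  have ap : ∀ (w : List Bool) (y : C), w.length = 6 →
      o ((w ++ₛ y).take 6) ++ₛ (w ++ₛ y).drop 6 = o w ++ₛ y := fun w y h => by
    rw [Stream'.take_append_of_le_length _ _ _ h.ge, ← h, List.take_length,
      Stream'.drop_append_stream]
  have mono : ∀ x y, Lt x y → Lt (o (x.take 6) ++ₛ x.drop 6) (o (y.take 6) ++ₛ y.drop 6) := by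
    intro x y h
    rcases lt3 6 x y h with e | ⟨e, h⟩
    · exact lt1 _ _ _ _ (by
        simpa [e] using List.all_eq_true.1 (List.all_eq_true.1 h1 _ (mw x 6)) _ (mw y 6))
    · exact e ▸ lt2 h _
  have ne : ∀ x y, Lt x y → x ≠ y := by
    rintro x _ ⟨n, -, a, b⟩ rfl
    cases a.symm.trans b
  refine ⟨Equiv.ofBijective (fun x => o (x.take 6) ++ₛ x.drop 6) ⟨fun x y e => ?_, fun x => ?_⟩,
    Subgroup.subset_closure ⟨⟨6, fun w h => ⟨o w, fun y => ap w y h⟩⟩, mono⟩, fun _ => rfl⟩
  · by_contra hc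
    have hc' := Function.ne_iff.1 hc
    have a := Nat.find_spec hc'
    have b := fun i (hi : i < Nat.find hc') => not_not.1 (Nat.find_min hc' hi)
    cases h : x (Nat.find hc')
    · exact ne _ _ (mono x y ⟨_, b, h, by simpa [h] using a⟩) e
    · exact ne _ _ (mono y x ⟨_, fun i hi => (b i hi).symm, by simpa [h] using a, h⟩) e.symm
  · obtain ⟨w, a, b⟩ := List.any_eq_true.1 (List.all_eq_true.1 h2 _ (mw x 9))
    obtain ⟨r, hr⟩ := List.isPrefixOf_iff_prefix.1 b
    exact ⟨w ++ₛ (r ++ₛ x.drop 9), (ap _ _ (len_wd 6 w a)).trans (by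
      rw [← Stream'.append_append_stream, hr, Stream'.append_take_drop])⟩

def oc : List Bool → List Bool
  | false :: true :: false :: l => false :: true :: false :: false :: l
  | false :: true :: true :: false :: l => false :: true :: false :: true :: l
  | false :: true :: true :: true :: l => false :: true :: true :: l
  | l => l

def os : List Bool → List Bool
  | false :: false :: false :: l => false :: false :: false :: false :: l
  | false :: false :: true :: false :: l => false :: false :: false :: true :: l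
  | false :: false :: true :: true :: l => false :: false :: true :: l
  | true :: false :: false :: l => true :: false :: l
  | true :: false :: true :: l => true :: true :: false :: l
  | true :: true :: l => true :: true :: true :: l
  | l => l

def oh : List Bool → List Bool
  | false :: false :: true :: false :: false :: false :: l => false :: false :: true :: false :: l
  | false :: false :: true :: false :: false :: true :: l => false :: false :: true :: true :: l
  | false :: false :: true :: false :: true :: false :: l => false :: true :: l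
  | false :: false :: true :: false :: true :: true :: l => true :: false :: false :: l
  | false :: false :: true :: true :: l => true :: false :: true :: false :: false :: l
  | false :: true :: l => true :: false :: true :: false :: true :: l
  | true :: false :: false :: l => true :: false :: true :: true :: false :: l
  | true :: false :: true :: l => true :: false :: true :: true :: true :: l
  | l => l

def jb (x : C) : Bool := !x 0 && x 1

def kb (x : C) : Bool := (!x 0 && (x 1 || x 2)) || (x 0 && !x 1)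

def zb (x : C) : Bool := x 0 && (!x 1 && x 2)

theorem six (P : C → Prop) (h : ∀ a b c d e f y, P ([a, b, c, d, e, f] ++ₛ y)) (x : C) : P x :=
  x.append_take_drop 6 ▸ h _ _ _ _ _ _ _

theorem geo (G : Subgroup (Perm C)) (hG : F ≤ G) : ∃ c s h : G,
    HeatE.Geo c s h {x : C | jb x = true} {x | kb x = true} {x | zb x = true} := by
  obtain ⟨c, c1, c2⟩ := mk oc (by decide +kernel) (by decide +kernel)
  obtain ⟨s, s1, s2⟩ := mk os (by decide +kernel) (by decide +kernel)
  obtain ⟨h, h1, h2⟩ := mk oh (by decide +kernel) (by decide +kernel)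
  refine ⟨⟨c, hG c1⟩, ⟨s, hG s1⟩, ⟨h, hG h1⟩, ?_, ⟨[false, true, true, true] ++ₛ .const false, rfl,
    fun e => ?_⟩, ?_, ?_, ?_, ?_, ?_, ?_⟩
  rotate_left
  · change c (c _) = _ at e
    rw [c2, c2] at e
    cases congrFun e 2
  all_goals
    simp only [Subgroup.smul_def, Perm.smul_def, c2, s2, h2, Set.mem_setOf_eq, Set.subset_def]
    refine six _ ?_
    rintro (_ | _) (_ | _) (_ | _) (_ | _) (_ | _) (_ | _) y a <;>
      first | rfl | exact absurd rfl a | exact Bool.noConfusion a | exact Bool.noConfusion |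
        exact a.elim Bool.noConfusion Bool.noConfusion

theorem result : F ≤ T ∧ T ≤ V ∧ ∀ G : Subgroup (Perm C), F ≤ G → G ≤ V → Bad G := by
  refine ⟨Subgroup.closure_mono fun g h => ⟨h.1, fun x y z => Or.imp (And.imp (h.2 _ _) (h.2 _ _))
    (Or.imp (And.imp (h.2 _ _) (h.2 _ _)) (And.imp (h.2 _ _) (h.2 _ _)))⟩,
    Subgroup.closure_mono fun g h => h.1, fun G h1 h2 => ?_⟩
  obtain ⟨c, s, h, D⟩ := geo G h1
  refine ⟨?_, Infinite.of_injective (fun n : ℤ => h ^ n) fun m n e => ?_, haag G h2, ?_⟩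
  · obtain ⟨d, -, hd⟩ := haag G h2
    rw [← Set.countable_univ_iff]
    exact (Set.countable_iUnion fun n : ℕ => (hd n).countable).mono fun g _ =>
      Set.mem_iUnion.2 (exists_nat_ge (d g))
  · obtain ⟨y, a, -⟩ := D.c2
    have b : s • y ∈ _ := (D.sJ y a).symm ▸ D.JK a
    by_contra hc
    refine (D.hn b (sub_ne_zero.2 hc)).2 ?_
    rwa [zpow_sub, show h ^ m = h ^ n from e, mul_inv_cancel, one_smul]
  · rintro ⟨H, _, _, _, b, u, d, a1, a2, a3⟩
    exact D.no a2.1 a2.2.2.2 fun t ht => HeatC.bound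
      ⟨by simp, by simp, by simp, by simp, fun g k => (a1 g k).trans (one_smul _ _).symm⟩ _ fun x hx => a3 x hx t ht

end Pool.Agent.Results.MP_94b6b1_an.Main
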